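import Mathlib

namespace Pool.Agent.Lib.MP_a24849_co

/-- `D` is a dominating set of `H`: every vertex outside `D` has a neighbour in `D`. -/
def IsDominating {W : Type} (H : SimpleGraph W) (D : Finset W) : Prop :=
  ∀ w, w ∉ D → ∃ d ∈ D, H.Adj w d

/-- `D` is an accurate dominating set of `H`: it is dominating, and its complement contains no
dominating set with exactly `|D|` elements. -/
def IsAccurateDominating {W : Type} (H : SimpleGraph W) (D : Finset W) : Prop :=
  IsDominating H D ∧ ¬ ∃ D' : Finset W, Disjoint D D' ∧ IsDominating H D' ∧ D'.card = D.card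

/-- The accurate domination number: the least size of an accurate dominating set. -/
noncomputable def accurateDominationNumber {W : Type} (H : SimpleGraph W) : ℕ :=
  sInf {n | ∃ D : Finset W, IsAccurateDominating H D ∧ D.card = n}

variable {V : Type} [Fintype V] [DecidableEq V] (G : SimpleGraph V) [DecidableRel G.Adj]
  (P : ∀ v : V, Finpartition (G.neighborFinset v))

/-- Adjacency in the `P`-corona. `Sum.inl v` is the vertex `(v,1)` and `Sum.inr ⟨v, A⟩` is the
vertex `(v,A)` for a block `A` of the partition `P v` of the neighbourhood of `v`. -/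
def coronaAdj : V ⊕ (Σ v : V, (P v).parts) → V ⊕ (Σ v : V, (P v).parts) → Prop
  | .inl _, .inl _ => False
  | .inl v, .inr x => v = x.1
  | .inr x, .inl v => v = x.1
  | .inr x, .inr y => G.Adj x.1 y.1 ∧ y.1 ∈ x.2.1 ∧ x.1 ∈ y.2.1

/-- The `P`-corona of `G`. -/
def corona : SimpleGraph (V ⊕ (Σ v : V, (P v).parts)) where
  Adj := coronaAdj G P
  symm := ⟨by
    rintro (a | a) (b | b) h
    · exact h
    · exact h
    · exact h
    · exact ⟨h.1.symm, h.2.2, h.2.1⟩⟩
  loopless := ⟨by
    rintro (a | a) h
    · exact h
    · exact G.irrefl h.1⟩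

end Pool.Agent.Lib.MP_a24849_co
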