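import Pool.Agent.Lib.MP_a24849_co.Defs

namespace Pool.Agent.Lib.MP_a24849_co

open Finset

set_option linter.unusedSectionVars false

section Abstract

variable {P L F : Type} [Fintype P] [Fintype L] [Fintype F]
  [DecidableEq P] [DecidableEq L] [DecidableEq F]

lemma card_preimage_of_fibres {A : Type} [DecidableEq A] (f : F → A) (m : ℕ)
    (hf : ∀ a, #{x | f x = a} = m) (S : Finset A) : #{x | f x ∈ S} = m * #S := by
  rw [Finset.card_eq_sum_card_fiberwise (f := f) (t := S) (by intro x hx; simpa using hx)]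
  rw [Finset.sum_congr rfl (g := fun _ => m)]
  · simp [mul_comm]
  · intro a ha
    rw [← hf a]
    congr 1
    ext x
    simp only [mem_filter, mem_univ, true_and]
    constructor
    · exact fun h => h.2
    · exact fun h => ⟨h ▸ ha, h⟩

/-- Expansion: a nonempty point set with few lines through it meets every line. -/
lemma expansion (pt : F → P) (ln : F → L) (m k : ℕ)
    (hpt : ∀ p, #{x | pt x = p} = m) (hln : ∀ l, #{x | ln x = l} = m)
    (hjoin : ∀ p p' : P, ∃ x x', pt x = p ∧ pt x' = p' ∧ ln x = ln x')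
    (hmeet : ∀ l l' : L, ∃ x x', ln x = l ∧ ln x' = l' ∧ pt x = pt x')
    (hk : 2 * (m * k) < Fintype.card P) (hm : 0 < m)
    (U : Finset P) (hU : U.Nonempty)
    (hN : #(image ln {x | pt x ∈ U}) ≤ #U + k) (l0 : L) : l0 ∈ image ln {x | pt x ∈ U} := by
  by_contra hl0
  obtain ⟨u, hu⟩ := hU
  set N := image ln {x | pt x ∈ U} with hNdef
  set Z : Finset F := {x | ln x ∈ N ∧ pt x ∉ U} with hZ
  have h1 : #{x | ln x ∈ N} = m * #N := card_preimage_of_fibres ln m hln N
  have h2 : #{x | pt x ∈ U} = m * #U := card_preimage_of_fibres pt m hpt U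
  have h3 : #{x | ln x ∈ N} = #{x | pt x ∈ U} + #Z := by
    rw [← card_union_of_disjoint]
    · congr 1
      ext x
      simp only [hZ, mem_filter, mem_univ, true_and, mem_union]
      constructor
      · intro h
        by_cases hx : pt x ∈ U
        · exact Or.inl hx
        · exact Or.inr ⟨h, hx⟩
      · rintro (h | h)
        · exact mem_image.2 ⟨x, by simpa using h, rfl⟩
        · exact h.1
    · rw [disjoint_left]
      intro x hx hx'
      simp only [hZ, mem_filter, mem_univ, true_and] at hx hx'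
      exact hx'.2 hx
  have h4 : #(Uᶜ) ≤ #Z := by
    refine le_trans (card_le_card ?_) (card_image_le (f := pt))
    intro c hc
    obtain ⟨x, x', hx, hx', hxx⟩ := hjoin c u
    refine mem_image.2 ⟨x, ?_, hx⟩
    simp only [hZ, mem_filter, mem_univ, true_and]
    refine ⟨mem_image.2 ⟨x', by simpa [hx'] using hu, hxx.symm⟩, ?_⟩
    rw [hx]
    simpa using hc
  have h5 : #N ≤ #Z := by
    refine le_trans (card_le_card ?_) (card_image_le (f := ln))
    intro l hl
    obtain ⟨x, x', hx, hx', hxx⟩ := hmeet l l0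
    refine mem_image.2 ⟨x, ?_, hx⟩
    simp only [hZ, mem_filter, mem_univ, true_and]
    refine ⟨hx ▸ hl, fun h => hl0 ?_⟩
    exact mem_image.2 ⟨x', by simpa [← hxx] using h, hx'⟩
  have h6 : #(Uᶜ) + #U = Fintype.card P := by
    rw [card_compl]
    have := card_le_univ U
    omega
  have h7 : #U ≤ #N := by
    have : m * #U ≤ m * #N := by omega
    exact Nat.le_of_mul_le_mul_left this hm
  have h8 : m * #N ≤ m * #U + m * k := by
    rw [← mul_add]
    exact Nat.mul_le_mul_left m hN
  omega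

/-- Hall: a perfect matching avoiding `X`. -/
lemma exists_matching (pt : F → P) (ln : F → L) (m k : ℕ)
    (hpt : ∀ p, #{x | pt x = p} = m) (hln : ∀ l, #{x | ln x = l} = m)
    (hkm : k + 1 < m) (U : Finset P) (X : Finset F) (hX : #X ≤ #U + k)
    (hUX : ∀ u ∈ U, ∃ x ∈ X, pt x = u)
    (hcase : U = ∅ ∨ ∀ l, ∃ x ∈ X, ln x = l) :
    ∃ s : P → F, (∀ p, pt (s p) = p) ∧ (∀ p, s p ∉ X) ∧ Function.Injective (fun p => ln (s p)) := by
  have hall := (Finset.all_card_le_biUnion_card_iff_exists_injective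
    (fun p : P => image ln {x | pt x = p ∧ x ∉ X})).1 ?_
  · obtain ⟨f, hf, hf'⟩ := hall
    have : ∀ p, ∃ x, (pt x = p ∧ x ∉ X) ∧ ln x = f p := by
      intro p
      obtain ⟨x, hx, hx'⟩ := mem_image.1 (hf' p)
      exact ⟨x, by simpa using hx, hx'⟩
    choose s hs hs' using this
    refine ⟨s, fun p => (hs p).1, fun p => (hs p).2, ?_⟩
    intro p p' h
    apply hf
    simpa [hs'] using h
  intro S
  set N := S.biUnion (fun p : P => image ln {x | pt x = p ∧ x ∉ X}) with hN
  have h1 : #{x | ln x ∈ N} = m * #N := card_preimage_of_fibres ln m hln N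
  have h2 : #{x | pt x ∈ S} = m * #S := card_preimage_of_fibres pt m hpt S
  set E : Finset F := {x | pt x ∈ S ∧ x ∉ X} with hE
  set XS : Finset F := {x ∈ X | pt x ∈ S} with hXS
  set XN : Finset F := {x ∈ X | ln x ∈ N} with hXN
  have h3 : #{x | pt x ∈ S} ≤ #E + #XS := by
    refine le_trans (card_le_card ?_) (card_union_le _ _)
    intro x hx
    simp only [hE, hXS, mem_filter, mem_univ, true_and, mem_union] at hx ⊢
    by_cases h : x ∈ X
    · exact Or.inr ⟨h, hx⟩
    · exact Or.inl ⟨hx, h⟩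
  have h4 : #E + #XN ≤ #{x | ln x ∈ N} := by
    rw [← card_union_of_disjoint]
    · apply card_le_card
      intro x hx
      simp only [hE, hXN, mem_filter, mem_univ, true_and, mem_union] at hx ⊢
      rcases hx with hx | hx
      · exact mem_biUnion.2 ⟨pt x, hx.1, mem_image.2 ⟨x, by simpa using hx.2, rfl⟩⟩
      · exact hx.2
    · rw [disjoint_left]
      intro x hx hx'
      simp only [hE, hXN, mem_filter, mem_univ, true_and] at hx hx'
      exact hx.2 hx'.1
  have h5 : #XS + #(U \ S) ≤ #X := by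
    have h51 : #(U \ S) ≤ #{x ∈ X | pt x ∉ S} := by
      refine le_trans (card_le_card ?_) (card_image_le (f := pt))
      intro u hu
      rw [mem_sdiff] at hu
      obtain ⟨x, hx, hx'⟩ := hUX u hu.1
      exact mem_image.2 ⟨x, mem_filter.2 ⟨hx, hx' ▸ hu.2⟩, hx'⟩
    have h52 : #XS + #{x ∈ X | pt x ∉ S} = #X :=
      card_filter_add_card_filter_not (s := X) (fun x => pt x ∈ S)
    omega
  have h6 : #U ≤ #(U \ S) + #S := by
    refine le_trans (card_le_card ?_) (card_union_le _ _)
    intro u hu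
    by_cases h : u ∈ S <;> simp [h, hu]
  by_contra hlt
  have hlt' : #N + 1 ≤ #S := by omega
  rcases hcase with hU | hcov
  · have h7 : #XS ≤ k := by
      subst hU
      simp only [card_empty] at hX
      omega
    have h8 : m * (#N + 1) ≤ m * #S := Nat.mul_le_mul_left m hlt'
    rw [mul_add] at h8
    omega
  · have h7 : #N ≤ #XN := by
      refine le_trans (card_le_card ?_) (card_image_le (f := ln))
      intro l hl
      obtain ⟨x, hx, hx'⟩ := hcov l
      exact mem_image.2 ⟨x, mem_filter.2 ⟨hx, hx' ▸ hl⟩, hx'⟩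
    obtain ⟨m', rfl⟩ : ∃ m', m = m' + 1 := ⟨m - 1, by omega⟩
    have h8 : m' * (#N + 1) ≤ m' * #S := Nat.mul_le_mul_left m' hlt'
    rw [mul_add] at h8
    rw [add_mul] at h1 h2
    omega

/-- No small dominating set of the flag graph is accurate. -/
lemma not_accurate (pt : F → P) (ln : F → L) (m k : ℕ)
    (hpt : ∀ p, #{x | pt x = p} = m) (hln : ∀ l, #{x | ln x = l} = m)
    (hjoin : ∀ p p' : P, ∃ x x', pt x = p ∧ pt x' = p' ∧ ln x = ln x')
    (hmeet : ∀ l l' : L, ∃ x x', ln x = l ∧ ln x' = l' ∧ pt x = pt x')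
    (hinj : ∀ x y, pt x = pt y → ln x = ln y → x = y)
    (hcard : Fintype.card P = Fintype.card L)
    (hk : 2 * (m * k) < Fintype.card P) (hkm : k + 1 < m) (hm : 3 ≤ m)
    (H : SimpleGraph (P ⊕ F))
    (h11 : ∀ a b, ¬ H.Adj (.inl a) (.inl b))
    (h12 : ∀ a x, H.Adj (.inl a) (.inr x) ↔ a = pt x)
    (h22 : ∀ x y, H.Adj (.inr x) (.inr y) ↔ pt x ≠ pt y ∧ ln x = ln y)
    (D : Finset (P ⊕ F)) (hD : #D ≤ Fintype.card P + k) : ¬ IsAccurateDominating H D := by
  rintro ⟨hdom, hacc⟩
  apply hacc
  set U : Finset P := (D.toLeft)ᶜ with hU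
  set X : Finset F := D.toRight with hX
  have hDc : #D.toLeft + #X = #D := card_toLeft_add_card_toRight
  have hUc : #U + #D.toLeft = Fintype.card P := by
    rw [hU, card_compl]
    have := card_le_univ D.toLeft
    omega
  have hXU : #X ≤ #U + k := by omega
  have hUX : ∀ u ∈ U, ∃ x ∈ X, pt x = u := by
    intro u hu
    have hu' : Sum.inl u ∉ D := by simpa [hU] using hu
    obtain ⟨d, hd, hadj⟩ := hdom _ hu'
    rcases d with a | x
    · exact absurd hadj (h11 _ _)
    · exact ⟨x, by simpa [hX] using hd, ((h12 _ _).1 hadj).symm⟩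
  have hNX : image ln {x | pt x ∈ U} ⊆ image ln X := by
    intro l hl
    obtain ⟨y, hy, rfl⟩ := mem_image.1 hl
    have hy' : Sum.inl (pt y) ∉ D := by simpa [hU] using hy
    by_cases hyD : Sum.inr y ∈ D
    · exact mem_image.2 ⟨y, by simpa [hX] using hyD, rfl⟩
    · obtain ⟨d, hd, hadj⟩ := hdom _ hyD
      rcases d with a | x
      · have := (h12 _ _).1 hadj.symm
        exact absurd (this ▸ hd) hy'
      · exact mem_image.2 ⟨x, by simpa [hX] using hd, ((h22 _ _).1 hadj).2.symm⟩
  have hcase : U = ∅ ∨ ∀ l, ∃ x ∈ X, ln x = l := by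
    rcases U.eq_empty_or_nonempty with h | h
    · exact Or.inl h
    · right
      intro l
      have := expansion pt ln m k hpt hln hjoin hmeet hk (by omega) U h
        (le_trans (le_trans (card_le_card hNX) card_image_le) hXU) l
      exact mem_image.1 (hNX this)
  obtain ⟨s, hs1, hs2, hs3⟩ := exists_matching pt ln m k hpt hln hkm U X hXU hUX hcase
  have hsurj : Function.Surjective (fun p => ln (s p)) :=
    ((Fintype.bijective_iff_injective_and_card _).2 ⟨hs3, hcard⟩).2
  set M : Finset (P ⊕ F) := image (fun p => Sum.inr (s p)) univ with hM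
  have hMc : #M ≤ Fintype.card P := le_trans card_image_le (by simp)
  have hUXc : #U ≤ #X := by
    refine le_trans (card_le_card ?_) (card_image_le (f := pt))
    intro u hu
    obtain ⟨x, hx, hx'⟩ := hUX u hu
    exact mem_image.2 ⟨x, hx, hx'⟩
  have hMD : M ⊆ Dᶜ := by
    intro w hw
    obtain ⟨p, -, rfl⟩ := mem_image.1 hw
    have := hs2 p
    simpa [hX] using this
  have hF : Fintype.card F = m * Fintype.card P := by
    have := card_preimage_of_fibres pt m hpt univ
    simpa using this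
  have hDD : #D ≤ #(Dᶜ) := by
    rw [card_compl, Fintype.card_sum, hF]
    have h1 : 3 * Fintype.card P ≤ m * Fintype.card P := Nat.mul_le_mul_right _ hm
    have h2 : 1 * k ≤ m * k := Nat.mul_le_mul_right _ (by omega)
    omega
  obtain ⟨D', hD1, hD2, hD3⟩ := exists_subsuperset_card_eq hMD (n := #D) (by omega) hDD
  refine ⟨D', ?_, ?_, hD3⟩
  · rw [disjoint_right]
    intro w hw
    simpa using hD2 hw
  · intro w hw
    rcases w with a | y
    · exact ⟨.inr (s a), hD1 (mem_image.2 ⟨a, mem_univ _, rfl⟩), (h12 _ _).2 (hs1 a).symm⟩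
    · obtain ⟨p, hp⟩ := hsurj (ln y)
      have hmem : Sum.inr (s p) ∈ D' := hD1 (mem_image.2 ⟨p, mem_univ _, rfl⟩)
      refine ⟨.inr (s p), hmem, (h22 _ _).2 ⟨fun h => hw ?_, hp.symm⟩⟩
      rw [hinj y (s p) h hp.symm]
      exact hmem

end Abstract

end Pool.Agent.Lib.MP_a24849_co
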