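import Pool.Agent.Lib.MP_a24849_co.Flags

namespace Pool.Agent.Lib.MP_a24849_co

open Finset Configuration

set_option linter.unusedSectionVars false

section Plane

variable (P L : Type) [Membership P L] [Fintype P] [Fintype L] [DecidableEq P] [DecidableEq L]
  [ProjectivePlane P L]

open Classical in
/-- The points of the line `l` other than `v`. -/
noncomputable def blk (v : P) (l : L) : Finset P := {u | u ≠ v ∧ u ∈ l}

lemma mem_blk {v u : P} {l : L} : u ∈ blk P L v l ↔ u ≠ v ∧ u ∈ l := by
  simp [blk]

lemma blk_nonempty (v : P) (l : L) : (blk P L v l).Nonempty := by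
  have h : 2 < pointCount P l := ProjectivePlane.two_lt_pointCount P l
  unfold pointCount at h
  have h1 : 1 < Nat.card { p : P // p ∈ l } := by omega
  have : Nontrivial { p : P // p ∈ l } := Finite.one_lt_card_iff_nontrivial.1 h1
  obtain ⟨a, b, hab⟩ := this
  by_cases ha : a.1 = v
  · refine ⟨b.1, (mem_blk P L).2 ⟨fun hb => hab (Subtype.ext (ha.trans hb.symm)), b.2⟩⟩
  · exact ⟨a.1, (mem_blk P L).2 ⟨ha, a.2⟩⟩

lemma blk_inj {v : P} {l l' : L} (hl : v ∈ l) (hl' : v ∈ l') (h : blk P L v l = blk P L v l') :
    l = l' := by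
  obtain ⟨u, hu⟩ := blk_nonempty P L v l
  have hu' := h ▸ hu
  rw [mem_blk] at hu hu'
  exact (Nondegenerate.eq_or_eq hu.2 hl hu'.2 hl').resolve_left hu.1

open Classical in
/-- The partition of the neighbourhood of `v` in the complete graph by the lines through `v`. -/
noncomputable def linePartition (v : P) :
    Finpartition ((⊤ : SimpleGraph P).neighborFinset v) :=
  Finpartition.ofExistsUnique (image (blk P L v) {l | v ∈ l})
    (by
      intro p hp u hu
      obtain ⟨l, -, rfl⟩ := mem_image.1 hp
      have := ((mem_blk P L).1 hu).1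
      simpa using this)
    (by
      intro u hu
      have huv : u ≠ v := by simpa using hu
      obtain ⟨l, hl, hl'⟩ := HasLines.existsUnique_line P L u v huv
      refine ⟨blk P L v l, ⟨mem_image.2 ⟨l, by simpa using hl.2, rfl⟩,
        (mem_blk P L).2 ⟨huv, hl.1⟩⟩, ?_⟩
      rintro t ⟨ht, hut⟩
      obtain ⟨l', hl1, rfl⟩ := mem_image.1 ht
      rw [hl' l' ⟨((mem_blk P L).1 hut).2, by simpa using hl1⟩])
    (by
      intro h
      obtain ⟨l, -, hl⟩ := mem_image.1 h
      exact (blk_nonempty P L v l).ne_empty hl)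

lemma mem_linePartition {v : P} {A : Finset P} :
    A ∈ (linePartition P L v).parts ↔ ∃ l : L, v ∈ l ∧ blk P L v l = A := by
  simp [linePartition, Finpartition.ofExistsUnique]

/-- The line determined by a block. -/
noncomputable def lineOf (x : Σ v : P, (linePartition P L v).parts) : L :=
  Classical.choose ((mem_linePartition P L).1 x.2.2)

lemma lineOf_spec (x : Σ v : P, (linePartition P L v).parts) :
    x.1 ∈ lineOf P L x ∧ blk P L x.1 (lineOf P L x) = x.2.1 :=
  Classical.choose_spec ((mem_linePartition P L).1 x.2.2)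

/-- The block determined by a flag. -/
noncomputable def flagOf (v : P) (l : L) (h : v ∈ l) : Σ v : P, (linePartition P L v).parts :=
  ⟨v, ⟨blk P L v l, (mem_linePartition P L).2 ⟨l, h, rfl⟩⟩⟩

lemma lineOf_flagOf (v : P) (l : L) (h : v ∈ l) : lineOf P L (flagOf P L v l h) = l := by
  have := lineOf_spec P L (flagOf P L v l h)
  exact blk_inj P L this.1 h this.2

lemma flag_inj (x y : Σ v : P, (linePartition P L v).parts) (h1 : x.1 = y.1)
    (h2 : lineOf P L x = lineOf P L y) : x = y := by
  have hx := lineOf_spec P L x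
  have hy := lineOf_spec P L y
  obtain ⟨v, A⟩ := x
  obtain ⟨u, B⟩ := y
  simp only at h1
  subst h1
  congr 1
  apply Subtype.ext
  rw [← hx.2, ← hy.2, h2]

lemma card_fst (p : P) :
    #{x : Σ v : P, (linePartition P L v).parts | x.1 = p} = ProjectivePlane.order P L + 1 := by
  classical
  rw [← ProjectivePlane.lineCount_eq L p, lineCount, Nat.card_eq_fintype_card, Fintype.card_subtype]
  refine card_bij (fun x _ => lineOf P L x) ?_ ?_ ?_
  · intro x hx
    have hx' : x.1 = p := by simpa using hx
    simpa [← hx'] using (lineOf_spec P L x).1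
  · intro x hx y hy h
    have hx' : x.1 = p := by simpa using hx
    have hy' : y.1 = p := by simpa using hy
    exact flag_inj P L x y (hx'.trans hy'.symm) h
  · intro l hl
    have hl' : p ∈ l := by simpa using hl
    exact ⟨flagOf P L p l hl', by simp [flagOf], lineOf_flagOf P L p l hl'⟩

lemma card_lineOf (l : L) :
    #{x : Σ v : P, (linePartition P L v).parts | lineOf P L x = l} =
      ProjectivePlane.order P L + 1 := by
  classical
  rw [← ProjectivePlane.pointCount_eq P l, pointCount, Nat.card_eq_fintype_card,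
    Fintype.card_subtype]
  refine card_bij (fun x _ => x.1) ?_ ?_ ?_
  · intro x hx
    have hx' : lineOf P L x = l := by simpa using hx
    simpa [← hx'] using (lineOf_spec P L x).1
  · intro x hx y hy h
    have hx' : lineOf P L x = l := by simpa using hx
    have hy' : lineOf P L y = l := by simpa using hy
    exact flag_inj P L x y h (hx'.trans hy'.symm)
  · intro p hp
    have hp' : p ∈ l := by simpa using hp
    exact ⟨flagOf P L p l hp', by simp [lineOf_flagOf], rfl⟩

lemma plane_not_accurate (k : ℕ) (hk : 2 * k ≤ ProjectivePlane.order P L)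
    (D : Finset (P ⊕ (Σ v : P, (linePartition P L v).parts))) (hD : #D ≤ Fintype.card P + k) :
    ¬ IsAccurateDominating (corona (⊤ : SimpleGraph P) (linePartition P L)) D := by
  classical
  have ho := ProjectivePlane.one_lt_order P L
  refine not_accurate (L := L) (fun x => x.1) (lineOf P L) (ProjectivePlane.order P L + 1) k
    (card_fst P L) (card_lineOf P L) ?_ ?_ (flag_inj P L)
    (ProjectivePlane.card_points_eq_card_lines P L) ?_ (by omega) (by omega) _ ?_ ?_ ?_ D hD
  · intro p p'
    by_cases h : p = p'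
    · subst h
      have h2 : 2 < lineCount L p := ProjectivePlane.two_lt_lineCount L p
      unfold lineCount at h2
      have : Nonempty { l : L // p ∈ l } := (Nat.card_pos_iff.1 (by omega)).1
      obtain ⟨l, hl⟩ := this
      exact ⟨flagOf P L p l hl, flagOf P L p l hl, rfl, rfl, rfl⟩
    · obtain ⟨l, hl, -⟩ := HasLines.existsUnique_line P L p p' h
      exact ⟨flagOf P L p l hl.1, flagOf P L p' l hl.2, rfl, rfl, by
        rw [lineOf_flagOf, lineOf_flagOf]⟩
  · intro l l'
    by_cases h : l = l'
    · subst h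
      have h2 : 2 < pointCount P l := ProjectivePlane.two_lt_pointCount P l
      unfold pointCount at h2
      have : Nonempty { p : P // p ∈ l } := (Nat.card_pos_iff.1 (by omega)).1
      obtain ⟨p, hp⟩ := this
      exact ⟨flagOf P L p l hp, flagOf P L p l hp, lineOf_flagOf .., lineOf_flagOf .., rfl⟩
    · obtain ⟨p, hp, -⟩ := HasPoints.existsUnique_point P L l l' h
      exact ⟨flagOf P L p l hp.1, flagOf P L p l' hp.2, lineOf_flagOf .., lineOf_flagOf .., rfl⟩
  · rw [ProjectivePlane.card_points P L]
    nlinarith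
  · intro a b h
    exact h
  · intro a x
    exact Iff.rfl
  · intro x y
    have hx := lineOf_spec P L x
    have hy := lineOf_spec P L y
    change (⊤ : SimpleGraph P).Adj x.1 y.1 ∧ y.1 ∈ x.2.1 ∧ x.1 ∈ y.2.1 ↔ _
    rw [← hx.2, ← hy.2, mem_blk, mem_blk, SimpleGraph.top_adj]
    constructor
    · rintro ⟨h, h1, h2⟩
      exact ⟨h, (Nondegenerate.eq_or_eq hx.1 h1.2 h2.2 hy.1).resolve_left h⟩
    · rintro ⟨h, h1⟩
      exact ⟨h, ⟨h.symm, h1 ▸ hy.1⟩, ⟨h, h1 ▸ hx.1⟩⟩

lemma plane_lt (k : ℕ) (hk : 2 * k ≤ ProjectivePlane.order P L) :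
    Fintype.card P + k <
      accurateDominationNumber (corona (⊤ : SimpleGraph P) (linePartition P L)) := by
  classical
  have hne : {n | ∃ D, IsAccurateDominating (corona (⊤ : SimpleGraph P) (linePartition P L)) D ∧
      D.card = n}.Nonempty := by
    refine ⟨_, univ, ⟨fun w hw => absurd (mem_univ w) hw, ?_⟩, rfl⟩
    rintro ⟨D', h1, -, h3⟩
    have h4 : D' = ∅ :=
      eq_empty_of_forall_notMem fun w hw => disjoint_left.1 h1 (mem_univ w) hw
    rw [h4, card_empty, card_univ, Fintype.card_sum, ProjectivePlane.card_points P L] at h3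
    omega
  obtain ⟨D, hD, hDc⟩ := Nat.sInf_mem hne
  by_contra hle
  refine plane_not_accurate P L k hk D ?_ hD
  rw [hDc]
  exact not_lt.1 hle

end Plane

open scoped LinearAlgebra.Projectivization

theorem unbounded (k : ℕ) :
    ∃ (V : Type) (_ : Fintype V) (_ : DecidableEq V) (G : SimpleGraph V) (_ : DecidableRel G.Adj)
      (P : ∀ v : V, Finpartition (G.neighborFinset v)),
      Fintype.card V + k < accurateDominationNumber (corona G P) := by
  classical
  obtain ⟨p, hpk, hp⟩ := Nat.exists_infinite_primes (2 * k)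
  have : Fact p.Prime := ⟨hp⟩
  let T := ℙ (ZMod p) (Fin 3 → ZMod p)
  have : Fintype T := Fintype.ofFinite T
  have hc : Nat.card T = ∑ i ∈ Finset.range 3, Nat.card (ZMod p) ^ i :=
    Projectivization.card_of_finrank (ZMod p) (Fin 3 → ZMod p) (by simp)
  have hc2 := ProjectivePlane.card_points T T
  rw [Nat.card_eq_fintype_card, hc2] at hc
  simp only [Nat.card_zmod, sum_range_succ, range_zero, sum_empty] at hc
  refine ⟨T, inferInstance, inferInstance, ⊤, inferInstance, linePartition T T,
    plane_lt T T k ?_⟩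
  by_contra hlt
  have h1 : ProjectivePlane.order T T < p := by omega
  nlinarith

end Pool.Agent.Lib.MP_a24849_co
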